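import Mathlib
import Pool.Agent.Lib.MP_9ec118_lc.Main3

/-!
The bound with ratio `C (log n) ^ (1 - ε)` follows from the bound with ratio
`log n / (log log n * A ^ (log* n))`.
-/

set_option autoImplicit false

namespace Pool.Agent.Lib.MP_9ec118_lc

open Filter

theorem ratio_le (A C : ℕ) (hA : 0 < A) {ε : ℝ} (hε : 0 < ε) :
    ∀ᶠ n : ℕ in atTop, C * Real.log n ^ (1 - ε) ≤
      Real.log n / (Real.log (Real.log n) * A ^ sInf {j : ℕ | (Nat.log 2)^[j] n ≤ 1}) := by
  obtain ⟨η, h0, h1, h2⟩ : ∃ η : ℝ, 0 < η ∧ η ≤ 1 ∧ η ≤ ε :=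
    ⟨min ε 1, lt_min hε one_pos, min_le_right _ _, min_le_left _ _⟩
  have ht : Tendsto Nat.size atTop atTop := tendsto_atTop_atTop.2 fun b =>
    ⟨2 ^ b, fun a ha => (Nat.lt_size.2 ha).le⟩
  have hl : Tendsto (fun n : ℕ => Real.log n) atTop atTop :=
    Real.tendsto_log_atTop.comp tendsto_natCast_atTop_atTop
  filter_upwards [ht.eventually (size_pow_le (3 * C * A ^ 3) (A + 1) h0), eventually_ge_atTop 3,
    hl.eventually_gt_atTop 1] with n a1 a2 a3
  have hm : 0 < n.size := Nat.size_pos.2 (by omega)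
  have hm' : 0 < n.size.size := Nat.size_pos.2 hm
  have b1 := logstar_le hm ((Nat.lt_size_self n).trans_le (Nat.pow_le_pow_right two_pos (by omega)))
  generalize sInf {j : ℕ | (Nat.log 2)^[j] n ≤ 1} = j at b1
  have b2 : A ^ j ≤ A ^ 3 * n.size.size ^ A := by
    refine (Nat.pow_le_pow_right hA b1).trans ?_
    rw [pow_add, mul_comm]
    refine Nat.mul_le_mul_left _ ((Nat.pow_le_pow_left Nat.lt_two_pow_self.le _).trans ?_)
    rw [← pow_mul, mul_comm, pow_mul]
    exact Nat.pow_le_pow_left (Nat.pow_log_le_self 2 hm'.ne') _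
  have key : ∀ x : ℕ, 0 < x → Real.log x ≤ x.size := fun x hx => by
    refine (Real.log_le_log (by exact_mod_cast hx)
      (show (x : ℝ) ≤ 2 ^ x.size by exact_mod_cast (Nat.lt_size_self x).le)).trans ?_
    rw [Real.log_pow]
    exact mul_le_of_le_one_right (by positivity) (by linarith [Real.log_two_lt_d9])
  have b3 : Real.log (Real.log n) ≤ n.size.size :=
    (Real.log_le_log (by linarith) (key n (by omega))).trans (key _ hm)
  have b4 : 0 < Real.log (Real.log n) := Real.log_pos a3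
  have b5 : (n.size : ℝ) ^ η ≤ 3 * Real.log n ^ ε := by
    refine (Real.rpow_le_rpow (by positivity) (size_le_log a2) h0.le).trans ?_
    rw [Real.mul_rpow (by norm_num) (by linarith)]
    refine mul_le_mul ?_ (Real.rpow_le_rpow_of_exponent_le a3.le h2) (by positivity) (by norm_num)
    exact (Real.rpow_le_rpow_of_exponent_le (by norm_num) h1).trans (Real.rpow_one 3).le
  have b6 : (A : ℝ) ^ j ≤ A ^ 3 * (n.size.size : ℝ) ^ A := by exact_mod_cast b2
  have b7 : (C : ℝ) * (Real.log (Real.log n) * A ^ j) ≤ Real.log n ^ ε := by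
    have c1 : Real.log (Real.log n) * A ^ j ≤ n.size.size * (A ^ 3 * (n.size.size : ℝ) ^ A) :=
      mul_le_mul b3 b6 (by positivity) (by positivity)
    have c2 := mul_le_mul_of_nonneg_left c1 (Nat.cast_nonneg (α := ℝ) C)
    push_cast at a1
    rw [pow_succ _ A] at a1
    nlinarith
  rw [le_div_iff₀ (by positivity), mul_right_comm]
  refine (mul_le_mul_of_nonneg_right b7 (by positivity)).trans (le_of_eq ?_)
  rw [← Real.rpow_add (by linarith)]
  simp

theorem general_of_nearLog (μ : MeasureTheory.Measure (ℕ → Bool))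
    [MeasureTheory.IsProbabilityMeasure μ]
    (hS : SETHr μ) (k : ℕ) (hk : 2 ≤ k) (δ ε : ℝ) (hδ : 0 < δ) (hε : 0 < ε) :
    ¬ ∃ (P : List (ℕ × ℕ × ℕ × ℕ)) (C : ℕ), ∀ n ≥ C, ∃ w ≤ C * Nat.size n,
      ∀ G : SimpleGraph (Fin n),
        (∃ D : Finset (Fin n), D.card = k ∧ ∀ v, ∃ u ∈ D, u = v ∨ G.Adj u v) →
        2 / 3 ≤ μ {ω | ∃ out, Outputs P w (tape (input G) ω) (C * (n : ℝ) ^ ((k : ℝ) - δ)) out ∧
          (out.length : ℝ) ≤ C * Real.log n ^ (1 - ε) * k ∧
          ∀ v, ∃ u : Fin n, u.val ∈ out ∧ (u = v ∨ G.Adj u v)} := by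
  rintro ⟨P, C, hP⟩
  obtain ⟨A, hA, H⟩ := main3 μ hS k hk δ hδ
  obtain ⟨n0, h0⟩ := eventually_atTop.1 (ratio_le A C hA hε)
  refine H ⟨P, C + n0, fun n hn => ?_⟩
  obtain ⟨w, hw, hG⟩ := hP n (by omega)
  refine ⟨w, hw.trans (Nat.mul_le_mul_right _ (by omega)), fun G hD =>
    (hG G hD).trans (MeasureTheory.measure_mono ?_)⟩
  rintro ω ⟨out, ⟨t, t1, t2⟩, o2, o3⟩
  refine ⟨out, ⟨t, t1.trans (mul_le_mul_of_nonneg_right (Nat.cast_le.2 (by omega))
    (by positivity)), t2⟩, o2.trans ?_, o3⟩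
  exact mul_le_mul_of_nonneg_right (h0 n (by omega)) (by positivity)

end Pool.Agent.Lib.MP_9ec118_lc
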